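import Mathlib
import Pool.Agent.H764R3.ER

/-!
# Linear orders all of whose subsets have countable cofinal and coinitial subsets
-/

set_option autoImplicit false

namespace Pool.Agent.Y275.SSCard

open Cardinal Set

universe u

theorem card_le (L : Type u) [LinearOrder L]
    (hc : ∀ F : Set L, ∃ C : Set L, C ⊆ F ∧ C.Countable ∧ ∀ x ∈ F, ∃ c ∈ C, x ≤ c)
    (hd : ∀ F : Set L, ∃ C : Set L, C ⊆ F ∧ C.Countable ∧ ∀ x ∈ F, ∃ c ∈ C, c ≤ x) :
    #L ≤ 2 ^ (ℵ₀ : Cardinal.{u}) := by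
  classical
  by_contra hcon
  rw [not_le] at hcon
  have hU : #((#L).ord.ToType) = #L := Cardinal.mk_ord_toType _
  obtain ⟨e⟩ : Nonempty ((#L).ord.ToType ≃ L) := Cardinal.eq.mp hU
  obtain ⟨H, hH, z, hz⟩ := Pool.Agent.H764R3.ER.erdos_rado (U := (#L).ord.ToType)
    (μ := (ℵ₀ : Cardinal.{u})) le_rfl (by rw [hU]; exact hcon) (Z := ULift.{u} Bool)
    (by rw [Cardinal.mk_uLift]; exact (Cardinal.lift_lt_aleph0.mpr
      (Cardinal.lt_aleph0_of_finite Bool)).le)
    (fun a b => ULift.up (decide (e a < e b)))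
  have hHu : ¬ H.Countable := by
    intro h
    exact absurd (hH.trans h.le_aleph0) (not_le.mpr (Order.lt_succ _))
  obtain ⟨H1, hH1d⟩ : ∃ H1 : Set ((#L).ord.ToType),
      ∀ h, h ∈ H1 ↔ h ∈ H ∧ {w | w ∈ H ∧ w < h}.Countable :=
    ⟨{h | h ∈ H ∧ {w | w ∈ H ∧ w < h}.Countable}, fun h => Iff.rfl⟩
  have hH1 : ¬ H1.Countable := by
    intro h
    have h1 : (H \ H1).Nonempty := by
      by_contra h2
      rw [Set.not_nonempty_iff_eq_empty, Set.sdiff_eq_empty] at h2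
      exact hHu (h.mono h2)
    obtain ⟨y, hy, hmin⟩ := WellFounded.has_min
      (wellFounded_lt (α := (#L).ord.ToType)) (H \ H1) h1
    apply hy.2
    refine (hH1d y).2 ⟨hy.1, h.mono fun w hw => ?_⟩
    by_contra hw1
    exact hmin w ⟨hw.1, hw1⟩ hw.2
  have key : ∀ C : Set ((#L).ord.ToType), C ⊆ H1 → C.Countable → ∃ x ∈ H1, ∀ c ∈ C, c < x := by
    intro C hC hCc
    by_contra h2
    push Not at h2
    apply hH1
    refine (hCc.biUnion (t := fun c _ => {w | w ∈ H ∧ w ≤ c}) ?_).mono ?_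
    · intro c hc'
      refine ((((hH1d c).1 (hC hc')).2).insert c).mono ?_
      rintro w ⟨hw1, hw2⟩
      rcases hw2.eq_or_lt with h | h
      · exact Or.inl h
      · exact Or.inr ⟨hw1, h⟩
    · intro x hx
      obtain ⟨c, hc', hcx⟩ := h2 x hx
      exact Set.mem_biUnion hc' ⟨((hH1d x).1 hx).1, hcx⟩
  have main : ∀ C : Set L, C ⊆ e '' H1 → C.Countable →
      ∃ x ∈ H1, ∀ c ∈ C, e.symm c ∈ H ∧ e.symm c < x := by
    intro C hC hCc
    have h1 : ∀ c ∈ C, e.symm c ∈ H1 := by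
      intro c hc'
      obtain ⟨w, hw, hwe⟩ := hC hc'
      rw [← hwe, Equiv.symm_apply_apply]
      exact hw
    obtain ⟨x, hx, hxC⟩ := key (e.symm '' C) (by
      rintro _ ⟨c, hc', rfl⟩
      exact h1 c hc') (hCc.image _)
    exact ⟨x, hx, fun c hc' => ⟨((hH1d _).1 (h1 c hc')).1, hxC _ ⟨c, hc', rfl⟩⟩⟩
  rcases z with ⟨_ | _⟩
  · -- decreasing
    have dec : ∀ a ∈ H, ∀ b ∈ H, a < b → e b < e a := by
      intro a ha b hb hab
      have h1 : decide (e a < e b) = false := congrArg ULift.down (hz a ha b hb hab)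
      have h2 : ¬ e a < e b := of_decide_eq_false h1
      exact lt_of_le_of_ne (not_lt.mp h2) fun h => hab.ne (e.injective h).symm
    obtain ⟨C, hCF, hCc, hcof⟩ := hd (e '' H1)
    obtain ⟨x, hx, hxC⟩ := main C hCF hCc
    obtain ⟨c, hcC, hxc⟩ := hcof (e x) (Set.mem_image_of_mem _ hx)
    obtain ⟨h4, h5⟩ := hxC c hcC
    have h6 := dec _ h4 _ ((hH1d x).1 hx).1 h5
    rw [Equiv.apply_symm_apply] at h6
    exact absurd hxc (not_le.mpr h6)
  · -- increasing
    have inc : ∀ a ∈ H, ∀ b ∈ H, a < b → e a < e b := by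
      intro a ha b hb hab
      have h1 : decide (e a < e b) = true := congrArg ULift.down (hz a ha b hb hab)
      exact of_decide_eq_true h1
    obtain ⟨C, hCF, hCc, hcof⟩ := hc (e '' H1)
    obtain ⟨x, hx, hxC⟩ := main C hCF hCc
    obtain ⟨c, hcC, hxc⟩ := hcof (e x) (Set.mem_image_of_mem _ hx)
    obtain ⟨h4, h5⟩ := hxC c hcC
    have h6 := inc _ h4 _ ((hH1d x).1 hx).1 h5
    rw [Equiv.apply_symm_apply] at h6
    exact absurd hxc (not_le.mpr h6)

end Pool.Agent.Y275.SSCard
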